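import Pool.Agent.H3.L2.Tensor

/-!
The exterior tensor product of two finite free resolutions of the trivial module is a finite free
resolution of the trivial module of the product group.
-/

set_option autoImplicit false

open scoped BigOperators

noncomputable section

namespace Pool.H42.L2

open Pool.H3.L2

section ext

variable {S G X : Type} [Fintype S] [Group G] [AddCommGroup X]

/-- The element `g` at the basis element `s`. -/
def bas {S G : Type} [DecidableEq S] [Group G] (s : S) (g : G) : S → GR G := Pi.single s (MonoidAlgebra.single g 1)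

/-- Additive extension of a function on the additive basis. -/
def ext (h : S → G → X) : (S → GR G) →+ X where
  toFun v := ∑ s, (v s).coeff.sum fun g n => n • h s g
  map_zero' := by simp
  map_add' v w := by
    rw [← Finset.sum_add_distrib]
    refine Finset.sum_congr rfl fun s _ => ?_
    rw [Pi.add_apply, MonoidAlgebra.coeff_add]
    exact Finsupp.sum_add_index' (by simp) (by intros; rw [add_smul])

theorem ext_apply (h : S → G → X) (v : S → GR G) :
    ext h v = ∑ s, (v s).coeff.sum fun g n => n • h s g := rfl

theorem ext_bas [DecidableEq S] (h : S → G → X) (s : S) (g : G) : ext h (bas s g) = h s g := by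
  rw [ext_apply, Finset.sum_eq_single s]
  · simp [bas, MonoidAlgebra.coeff_single]
  · intro t _ ht; simp [bas, ht]
  · simp

theorem ext_congr {h h' : S → G → X} {v : S → GR G} (H : ∀ s g, v s ≠ 0 → h s g = h' s g) :
    ext h v = ext h' v := by
  rw [ext_apply, ext_apply]
  refine Finset.sum_congr rfl fun s _ => ?_
  by_cases hs : v s = 0
  · simp [hs]
  · simp only [H s _ hs]

theorem hom_ext [DecidableEq S] {f f' : (S → GR G) →+ X} (H : ∀ s g, f (bas s g) = f' (bas s g)) : f = f' := by
  refine AddMonoidHom.functions_ext _ _ _ fun s x => ?_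
  have : f.comp (AddMonoidHom.single (fun _ : S => GR G) s) =
      f'.comp (AddMonoidHom.single (fun _ : S => GR G) s) := by
    refine MonoidAlgebra.addMonoidHom_ext fun g n => ?_
    have h1 : (MonoidAlgebra.single g n : GR G) = n • MonoidAlgebra.single g 1 := by simp
    rw [h1, map_zsmul, map_zsmul]
    congr 1
    exact H s g
  exact DFunLike.congr_fun this x

theorem ext_eq [DecidableEq S] (f : (S → GR G) →+ X) : ext (fun s g => f (bas s g)) = f :=
  hom_ext fun _ _ => ext_bas _ _ _

theorem hom_eq_of [DecidableEq S] {f f' : (S → GR G) →+ X} {v : S → GR G}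
    (H : ∀ s g, v s ≠ 0 → f (bas s g) = f' (bas s g)) : f v = f' v := by
  rw [← ext_eq f, ← ext_eq f']
  exact ext_congr H

end ext

section aug

variable {G : Type} [Group G]

theorem aug_add (a b : GR G) : aug (a + b) = aug a + aug b := by
  rw [aug, MonoidAlgebra.coeff_add]
  exact Finsupp.sum_add_index' (by simp) (by simp)

theorem aug_single (g : G) (n : ℤ) : aug (MonoidAlgebra.single g n) = n := by
  simp [aug, MonoidAlgebra.coeff_single]

theorem aug_zero : aug (0 : GR G) = 0 := by simp [aug]

/-- The augmentation of a based complex given by the values on the basis. -/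
def eps {S : Type} [Fintype S] (e : S → ℤ) : (S → GR G) →+ ℤ where
  toFun v := ∑ s, aug (v s) * e s
  map_zero' := by simp [aug_zero]
  map_add' v w := by
    rw [← Finset.sum_add_distrib]
    refine Finset.sum_congr rfl fun s _ => ?_
    rw [Pi.add_apply, aug_add, add_mul]

theorem eps_apply {S : Type} [Fintype S] (e : S → ℤ) (v : S → GR G) :
    eps e v = ∑ s, aug (v s) * e s := rfl

theorem eps_bas {S : Type} [Fintype S] [DecidableEq S] (e : S → ℤ) (s : S) (g : G) :
    eps e (bas s g) = e s := by
  rw [eps_apply, Finset.sum_eq_single s]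
  · simp [bas, aug_single]
  · intro t _ ht; simp [bas, ht, aug_zero]
  · simp

/-- The differential as an additive homomorphism. -/
def dH (C : BCx (GR G)) : (C.S → GR G) →+ (C.S → GR G) where
  toFun v := Matrix.vecMul v C.D
  map_zero' := Matrix.zero_vecMul _
  map_add' v w := Matrix.add_vecMul _ v w

theorem dH_apply (C : BCx (GR G)) (v : C.S → GR G) : dH C v = Matrix.vecMul v C.D := rfl

theorem dH_dH (C : BCx (GR G)) (v : C.S → GR G) : dH C (dH C v) = 0 := by
  rw [dH_apply, dH_apply, Matrix.vecMul_vecMul, C.D_D, Matrix.vecMul_zero]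

theorem dH_bas (C : BCx (GR G)) (s t : C.S) (g : G) :
    dH C (bas s g) t = MonoidAlgebra.single g 1 * C.D s t := by
  rw [dH_apply, Matrix.vecMul, dotProduct, Finset.sum_eq_single s]
  · simp [bas]
  · intro u _ hu; simp [bas, hu]
  · simp

/-- An element supported in degree `k` goes to an element supported in degree `k - 1`. -/
theorem dH_supp (C : BCx (GR G)) {v : C.S → GR G} {k : ℕ} (hv : ∀ s, C.deg s ≠ k → v s = 0)
    {t : C.S} (ht : k ≠ C.deg t + 1) : dH C v t = 0 := by
  rw [dH_apply, Matrix.vecMul, dotProduct]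
  refine Finset.sum_eq_zero fun s _ => ?_
  by_cases h : C.deg s = k
  · by_cases h' : C.D s t = 0
    · rw [h', mul_zero]
    · exact absurd (h ▸ C.deg_D s t h') ht
  · rw [hv s h, zero_mul]

theorem aug_mul_single (g : G) (a : GR G) : aug (MonoidAlgebra.single g 1 * a) = aug a := by
  induction a using MonoidAlgebra.induction_linear with
  | zero => simp
  | add x y hx hy => rw [mul_add, aug_add, aug_add, hx, hy]
  | single h r => rw [MonoidAlgebra.single_mul_single, aug_single, aug_single, one_mul]

theorem eps_dH (C : BCx (GR G)) (e : C.S → ℤ) (h2 : ∀ s, ∑ t, aug (C.D s t) * e t = 0)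
    (v : C.S → GR G) : eps e (dH C v) = 0 := by
  have : (eps e).comp (dH C) = 0 := by
    refine hom_ext fun s g => ?_
    rw [AddMonoidHom.comp_apply, eps_apply, AddMonoidHom.zero_apply]
    simp only [dH_bas, aug_mul_single]
    exact h2 s
  exact DFunLike.congr_fun this v

theorem bas_supp {S : Type} [DecidableEq S] {s t : S} (g : G) (h : t ≠ s) :
    bas s g t = 0 := by
  simp [bas, h]

end aug

section contraction

variable {G : Type} [Group G] (C : BCx (GR G))

/-- The `ℤ`-linear contracting homotopy of a resolution. -/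
theorem exists_contraction {e : C.S → ℤ} {v0 : C.S → GR G}
    (h1 : ∀ s, C.deg s ≠ 0 → e s = 0) (h2 : ∀ s, ∑ t, aug (C.D s t) * e t = 0)
    (h3 : ∀ s, C.deg s ≠ 0 → v0 s = 0) (h4 : eps e v0 = 1)
    (h5 : ∀ v : C.S → GR G, dH C v = 0 → eps e v = 0 → ∃ w : C.S → GR G, dH C w = v) :
    ∃ H : (C.S → GR G) →+ (C.S → GR G),
      (∀ s g t, C.deg t ≠ C.deg s + 1 → H (bas s g) t = 0) ∧
      ∀ v, dH C (H v) + H (dH C v) = v - eps e v • v0 := by
  have hv0 : dH C v0 = 0 := by
    funext t
    exact dH_supp C h3 (by omega)
  have key : ∀ k : ℕ, ∃ H : (C.S → GR G) →+ (C.S → GR G),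
      (∀ s g t, C.deg t ≠ C.deg s + 1 → H (bas s g) t = 0) ∧
      ∀ s g, C.deg s < k → dH C (H (bas s g)) + H (dH C (bas s g)) = bas s g - e s • v0 := by
    intro k
    induction k with
    | zero => exact ⟨0, fun _ _ _ _ => rfl, fun s g h => absurd h (by omega)⟩
    | succ k ih =>
      obtain ⟨H, hg, hH⟩ := ih
      -- the identity for all chains of degree `< k`
      have hlin : ∀ u : C.S → GR G, (∀ s, u s ≠ 0 → C.deg s < k) →
          dH C (H u) + H (dH C u) = u - eps e u • v0 := by
        intro u hu
        let f : (C.S → GR G) →+ (C.S → GR G) := (dH C).comp H + H.comp (dH C)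
        let f' : (C.S → GR G) →+ (C.S → GR G) :=
          AddMonoidHom.id _ - ((AddMonoidHom.flip (AddMonoidHom.smul (R := ℤ)
            (M := C.S → GR G))) v0).comp (eps e)
        have : f u = f' u := by
          refine hom_eq_of fun s g hs => ?_
          show dH C (H (bas s g)) + H (dH C (bas s g)) = bas s g - eps e (bas s g) • v0
          rw [eps_bas]
          exact hH s g (hu s hs)
        exact this
      have heH : ∀ u : C.S → GR G, eps e (H u) = 0 := by
        intro u
        have : (eps e).comp H = 0 := by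
          refine hom_ext fun s g => ?_
          rw [AddMonoidHom.comp_apply, AddMonoidHom.zero_apply, eps_apply]
          refine Finset.sum_eq_zero fun t _ => ?_
          by_cases ht : C.deg t = C.deg s + 1
          · rw [h1 t (by omega), mul_zero]
          · rw [hg s g t ht, aug_zero, zero_mul]
        exact DFunLike.congr_fun this u
      have hch : ∀ s g, C.deg s = k → ∃ w : C.S → GR G,
          (∀ t, C.deg t ≠ k + 1 → w t = 0) ∧
          dH C w = bas s g - e s • v0 - H (dH C (bas s g)) := by
        intro s g hs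
        have hu : ∀ t, dH C (bas s g) t ≠ 0 → C.deg t + 1 = k := by
          intro t ht
          by_contra hne
          refine ht (dH_supp C (k := k) (fun r hr => bas_supp g ?_) (by omega))
          rintro rfl
          exact hr hs
        have hz1 : dH C (bas s g - e s • v0 - H (dH C (bas s g))) = 0 := by
          have := hlin (dH C (bas s g)) (fun t ht => by have := hu t ht; omega)
          rw [dH_dH, map_zero, add_zero, eps_dH C e h2, zero_smul, sub_zero] at this
          rw [map_sub, map_sub, map_zsmul, hv0, this]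
          simp
        have hz2 : eps e (bas s g - e s • v0 - H (dH C (bas s g))) = 0 := by
          rw [map_sub, map_sub, map_zsmul, h4, heH, eps_bas]
          simp
        obtain ⟨w, hw⟩ := h5 _ hz1 hz2
        refine ⟨fun t => if C.deg t = k + 1 then w t else 0, fun t ht => if_neg ht, ?_⟩
        funext t
        by_cases ht : C.deg t = k
        · rw [← hw, dH_apply, dH_apply, Matrix.vecMul, Matrix.vecMul, dotProduct, dotProduct]
          refine Finset.sum_congr rfl fun r _ => ?_
          by_cases hr : C.deg r = k + 1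
          · rw [if_pos hr]
          · rw [if_neg hr]
            have : C.D r t = 0 := by
              by_contra h0
              exact hr (by rw [C.deg_D r t h0, ht])
            rw [this, mul_zero, mul_zero]
        · rw [dH_supp C (k := k + 1) (fun r hr => if_neg hr) (by omega)]
          have e1 : bas s g t = 0 := bas_supp g (by rintro rfl; exact ht hs)
          have e2 : e s • v0 t = 0 := by
            by_cases h0 : C.deg t = 0
            · rw [h1 s (by omega), zero_smul]
            · rw [h3 t h0, smul_zero]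
          have e3 : H (dH C (bas s g)) t = 0 := by
            have : ((Pi.evalAddMonoidHom (fun _ : C.S => GR G) t).comp H) (dH C (bas s g)) =
                (0 : (C.S → GR G) →+ GR G) (dH C (bas s g)) := by
              refine hom_eq_of fun r g' hr => ?_
              have := hu r hr
              exact hg r g' t (by omega)
            exact this
          rw [Pi.sub_apply, Pi.sub_apply, Pi.smul_apply, e1, e2, e3]
          simp
      choose w hw1 hw2 using hch
      let h' : C.S → G → (C.S → GR G) := fun s g =>
        if hs : C.deg s = k then w s g hs else H (bas s g)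
      have hH' : ∀ u : C.S → GR G, (∀ s, u s ≠ 0 → C.deg s ≠ k) → ext h' u = H u := by
        intro u hu
        conv_rhs => rw [← ext_eq H]
        refine ext_congr fun s g hs => ?_
        simp only [h', dif_neg (hu s hs)]
      refine ⟨ext h', ?_, ?_⟩
      · intro s g t ht
        rw [ext_bas]
        by_cases hs : C.deg s = k
        · simp only [h', dif_pos hs]
          exact hw1 s g hs t (by omega)
        · simp only [h', dif_neg hs]
          exact hg s g t ht
      · intro s g hs
        have hd : ext h' (dH C (bas s g)) = H (dH C (bas s g)) := by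
          refine hH' _ fun t ht => ?_
          intro hk
          refine ht (dH_supp C (k := C.deg s) (fun r hr => bas_supp g ?_) (by omega))
          rintro rfl
          exact hr rfl
        rw [hd, ext_bas]
        by_cases hs' : C.deg s = k
        · simp only [h', dif_pos hs']
          rw [hw2 s g hs']
          abel
        · simp only [h', dif_neg hs']
          exact hH s g (by omega)
  obtain ⟨H, hg, hH⟩ := key (Finset.univ.sup C.deg + 1)
  refine ⟨H, hg, fun v => ?_⟩
  let f : (C.S → GR G) →+ (C.S → GR G) := (dH C).comp H + H.comp (dH C)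
  let f' : (C.S → GR G) →+ (C.S → GR G) :=
    AddMonoidHom.id _ - ((AddMonoidHom.flip (AddMonoidHom.smul (R := ℤ)
      (M := C.S → GR G))) v0).comp (eps e)
  have : f = f' := by
    refine hom_ext fun s g => ?_
    show dH C (H (bas s g)) + H (dH C (bas s g)) = bas s g - eps e (bas s g) • v0
    rw [eps_bas]
    exact hH s g (Nat.lt_succ_of_le (Finset.le_sup (f := C.deg) (Finset.mem_univ s)))
  exact DFunLike.congr_fun this v

end contraction

section tensor

variable {G1 G2 : Type} [Group G1] [Group G2]

/-- Exterior product of chains. -/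
def tm {S1 S2 : Type} (a : S1 → GR G1) (b : S2 → GR G2) : S1 × S2 → GR (G1 × G2) :=
  fun s => inlR G1 G2 (a s.1) * inrR G1 G2 (b s.2)

/-- The exterior product with a fixed second factor. -/
def tmL {S1 S2 : Type} (b : S2 → GR G2) : (S1 → GR G1) →+ (S1 × S2 → GR (G1 × G2)) where
  toFun a := tm a b
  map_zero' := by funext s; simp [tm]
  map_add' x y := by funext s; simp [tm, add_mul]

/-- The exterior product with a fixed first factor. -/
def tmR {S1 S2 : Type} (a : S1 → GR G1) : (S2 → GR G2) →+ (S1 × S2 → GR (G1 × G2)) where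
  toFun b := tm a b
  map_zero' := by funext s; simp [tm]
  map_add' x y := by funext s; simp [tm, mul_add]

theorem tmL_apply {S1 S2 : Type} (a : S1 → GR G1) (b : S2 → GR G2) : tmL b a = tm a b := rfl
theorem tmR_apply {S1 S2 : Type} (a : S1 → GR G1) (b : S2 → GR G2) : tmR a b = tm a b := rfl

theorem tm_bas {S1 S2 : Type} [DecidableEq S1] [DecidableEq S2] (s : S1) (t : S2)
    (g : G1) (h : G2) :
    tm (bas s g) (bas t h) = bas (s, t) (g, h) := by
  funext ⟨s', t'⟩
  by_cases hs : s' = s
  · by_cases ht : t' = t
    · subst hs; subst ht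
      simp [tm, bas, inlR, inrR, MonoidAlgebra.mapDomain_single]
    · rw [bas_supp _ (by simp [ht]), tm, bas_supp h ht, map_zero, mul_zero]
  · rw [bas_supp _ (by simp [hs]), tm, bas_supp g hs, map_zero, zero_mul]

/-- The sign change. -/
def sg (C : BCx (GR G1)) : (C.S → GR G1) →+ (C.S → GR G1) where
  toFun a := fun s => (-1) ^ C.deg s * a s
  map_zero' := by funext s; simp
  map_add' x y := by funext s; simp [mul_add]

theorem sg_apply (C : BCx (GR G1)) (a : C.S → GR G1) (s : C.S) :
    sg C a s = (-1) ^ C.deg s * a s := rfl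

/-- The differential of the exterior tensor product. -/
def dT (C1 : BCx (GR G1)) (C2 : BCx (GR G2)) :
    (C1.S × C2.S → GR (G1 × G2)) →+ (C1.S × C2.S → GR (G1 × G2)) where
  toFun v := Matrix.vecMul v (lft C2.S (C1.D.map (inlR G1 G2)) +
    lft C2.S (sgnM (GR (G1 × G2)) C1.deg) * rgt C1.S (C2.D.map (inrR G1 G2)))
  map_zero' := Matrix.zero_vecMul _
  map_add' v w := Matrix.add_vecMul _ v w

theorem dT_tm (C1 : BCx (GR G1)) (C2 : BCx (GR G2)) (a : C1.S → GR G1) (b : C2.S → GR G2) :
    dT C1 C2 (tm a b) = tm (dH C1 a) b + tm (sg C1 a) (dH C2 b) := by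
  funext ⟨t, t'⟩
  show Matrix.vecMul (tm a b) (lft C2.S (C1.D.map (inlR G1 G2)) +
    lft C2.S (sgnM (GR (G1 × G2)) C1.deg) * rgt C1.S (C2.D.map (inrR G1 G2))) (t, t') = _
  rw [Matrix.vecMul_add, Pi.add_apply, Pi.add_apply]
  congr 1
  · rw [Matrix.vecMul, dotProduct, Fintype.sum_prod_type]
    simp only [lft, Matrix.of_apply, tm, dH_apply, Matrix.vecMul, dotProduct, map_sum, map_mul,
      Finset.sum_mul]
    refine Finset.sum_congr rfl fun s _ => ?_
    rw [Finset.sum_eq_single t']
    · rw [if_pos rfl, mul_assoc, mul_assoc, Matrix.map_apply, inlR_comm]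
    · intro u _ hu
      rw [if_neg hu, mul_zero]
    · simp
  · rw [Matrix.vecMul, dotProduct, Fintype.sum_prod_type, Finset.sum_eq_single t]
    · simp only [lft_mul_rgt]
      simp only [tm, dH_apply, Matrix.vecMul, dotProduct, map_sum, map_mul, Finset.mul_sum,
        sg_apply, sgnM, Matrix.diagonal_apply_eq, Matrix.map_apply, map_pow, map_neg, map_one]
      refine Finset.sum_congr rfl fun s _ => ?_
      rcases neg_one_pow_eq_or (GR (G1 × G2)) (C1.deg t) with h | h <;> rw [h] <;>
        simp [mul_assoc]
    · intro s _ hs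
      refine Finset.sum_eq_zero fun u _ => ?_
      rw [lft_mul_rgt, sgnM, Matrix.diagonal_apply_ne _ hs, zero_mul, mul_zero]
    · simp

theorem isRes_xtens {C1 : BCx (GR G1)} {C2 : BCx (GR G2)} (R1 : C1.IsRes) (R2 : C2.IsRes) :
    (C1.xtens C2).IsRes := by
  obtain ⟨e1, a1, b1, ⟨v1, c1⟩, d1⟩ := R1
  obtain ⟨e2, a2, b2, ⟨v2, c2⟩, d2⟩ := R2
  -- restrict `v1` to degree `0`
  obtain ⟨v0, hv0, c0⟩ : ∃ v0 : C1.S → GR G1, (∀ s, C1.deg s ≠ 0 → v0 s = 0) ∧
      eps e1 v0 = 1 := by
    refine ⟨fun s => if C1.deg s = 0 then v1 s else 0, fun s hs => if_neg hs, ?_⟩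
    rw [← c1, eps_apply]
    refine Finset.sum_congr rfl fun s _ => ?_
    by_cases hs : C1.deg s = 0
    · rw [if_pos hs]
    · rw [a1 s hs, mul_zero, mul_zero]
  obtain ⟨H, hg, hH⟩ := exists_contraction C1 a1 b1 hv0 c0 d1
  -- the operators on the tensor product
  let Ht : (C1.S × C2.S → GR (G1 × G2)) →+ (C1.S × C2.S → GR (G1 × G2)) :=
    ext fun s g => tm (H (bas s.1 g.1)) (bas s.2 g.2)
  let E : (C1.S × C2.S → GR (G1 × G2)) →+ (C2.S → GR G2) :=
    ext fun s g => e1 s.1 • bas s.2 g.2
  have hHt : ∀ a b, Ht (tm a b) = tm (H a) b := by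
    intro a b
    have : Ht.comp (tmL b) = (tmL b).comp H := by
      refine hom_ext fun s g => ?_
      have : Ht.comp (tmR (bas s g)) = tmR (H (bas s g)) := by
        refine hom_ext fun t h => ?_
        show Ht (tm (bas s g) (bas t h)) = tm (H (bas s g)) (bas t h)
        rw [tm_bas]
        exact ext_bas _ _ _
      exact DFunLike.congr_fun this b
    exact DFunLike.congr_fun this a
  have hE : ∀ a b, E (tm a b) = eps e1 a • b := by
    intro a b
    have : E.comp (tmL b) = ((AddMonoidHom.flip (AddMonoidHom.smul (R := ℤ)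
        (M := C2.S → GR G2))) b).comp (eps e1) := by
      refine hom_ext fun s g => ?_
      have : E.comp (tmR (bas s g)) = AddMonoidHom.smul (R := ℤ) (M := C2.S → GR G2) (e1 s) := by
        refine hom_ext fun t h => ?_
        show E (tm (bas s g) (bas t h)) = e1 s • bas t h
        rw [tm_bas]
        exact ext_bas _ _ _
      have h1 := DFunLike.congr_fun this b
      show E (tm (bas s g) b) = eps e1 (bas s g) • b
      rw [eps_bas]
      exact h1
    exact DFunLike.congr_fun this a
  have hsgH : ∀ s g, sg C1 (H (bas s g)) + H (sg C1 (bas s g)) = 0 := by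
    intro s g
    have h1 : sg C1 (bas s g) = ((-1 : ℤ) ^ C1.deg s) • bas s g := by
      funext t
      rw [sg_apply, Pi.smul_apply]
      by_cases ht : t = s
      · subst ht
        rcases Nat.even_or_odd (C1.deg t) with h | h
        · rw [h.neg_one_pow, h.neg_one_pow, one_mul, one_smul]
        · rw [h.neg_one_pow, h.neg_one_pow, neg_one_mul, neg_one_smul]
      · rw [bas_supp g ht, mul_zero, smul_zero]
    rw [h1, map_zsmul]
    funext t
    rw [Pi.add_apply, Pi.smul_apply, sg_apply, Pi.zero_apply]
    by_cases ht : C1.deg t = C1.deg s + 1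
    · rw [ht, pow_succ]
      rcases Nat.even_or_odd (C1.deg s) with h | h
      · rw [h.neg_one_pow, h.neg_one_pow]; simp
      · rw [h.neg_one_pow, h.neg_one_pow]; simp
    · rw [hg s g t ht, mul_zero, smul_zero, add_zero]
  have hsge : ∀ s g, eps e1 (sg C1 (bas s g)) = e1 s := by
    intro s g
    by_cases hs : C1.deg s = 0
    · have h1 : sg C1 (bas s g) = bas s g := by
        funext t
        rw [sg_apply]
        by_cases ht : t = s
        · subst ht; rw [hs, pow_zero, one_mul]
        · rw [bas_supp g ht, mul_zero]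
      rw [h1, eps_bas]
    · rw [a1 s hs, eps_apply]
      refine Finset.sum_eq_zero fun t _ => ?_
      by_cases ht : t = s
      · subst ht; rw [a1 t hs, mul_zero]
      · rw [sg_apply, bas_supp g ht, mul_zero, aug_zero, zero_mul]
  -- the homotopy identity
  have hid : ∀ v, dT C1 C2 (Ht v) + Ht (dT C1 C2 v) = v - tm v0 (E v) := by
    intro v
    let f := (dT C1 C2).comp Ht + Ht.comp (dT C1 C2)
    let f' := AddMonoidHom.id _ - (tmR v0).comp E
    have : f = f' := by
      refine hom_ext ?_
      rintro ⟨s, t⟩ ⟨g, h⟩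
      show dT C1 C2 (Ht (bas (s, t) (g, h))) + Ht (dT C1 C2 (bas (s, t) (g, h))) =
        bas (s, t) (g, h) - tm v0 (E (bas (s, t) (g, h)))
      rw [← tm_bas, hHt, hE, dT_tm, dT_tm, map_add, hHt, hHt]
      have k1 := hH (bas s g)
      have k2 := hsgH s g
      have l1 : tm (dH C1 (H (bas s g))) (bas t h) + tm (H (dH C1 (bas s g))) (bas t h) =
          tm (bas s g) (bas t h) - tm (eps e1 (bas s g) • v0) (bas t h) := by
        rw [← tmL_apply, ← tmL_apply, ← map_add, k1, map_sub]
        rfl
      have l2 : tm (sg C1 (H (bas s g))) (dH C2 (bas t h)) +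
          tm (H (sg C1 (bas s g))) (dH C2 (bas t h)) = 0 := by
        rw [← tmL_apply, ← tmL_apply, ← map_add, k2, map_zero]
      have l3 : tm (eps e1 (bas s g) • v0) (bas t h) = tm v0 (eps e1 (bas s g) • bas t h) := by
        rw [← tmL_apply, ← tmR_apply, map_zsmul, map_zsmul, tmL_apply, tmR_apply]
      rw [← l3]
      calc _ = (tm (dH C1 (H (bas s g))) (bas t h) + tm (H (dH C1 (bas s g))) (bas t h)) +
            (tm (sg C1 (H (bas s g))) (dH C2 (bas t h)) +
              tm (H (sg C1 (bas s g))) (dH C2 (bas t h))) := by abel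
        _ = _ := by rw [l1, l2, add_zero]
    exact DFunLike.congr_fun this v
  have hEd : ∀ v, E (dT C1 C2 v) = dH C2 (E v) := by
    intro v
    have : E.comp (dT C1 C2) = (dH C2).comp E := by
      refine hom_ext ?_
      rintro ⟨s, t⟩ ⟨g, h⟩
      show E (dT C1 C2 (bas (s, t) (g, h))) = dH C2 (E (bas (s, t) (g, h)))
      rw [← tm_bas, hE, dT_tm, map_add, hE, hE, eps_dH C1 e1 b1, zero_smul, zero_add, hsge,
        eps_bas, map_zsmul]
    exact DFunLike.congr_fun this v
  let e : C1.S × C2.S → ℤ := fun s => e1 s.1 * e2 s.2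
  have heE : ∀ v, eps e2 (E v) = eps e v := by
    intro v
    have : (eps e2).comp E = eps e := by
      refine hom_ext ?_
      rintro ⟨s, t⟩ ⟨g, h⟩
      show eps e2 (E (bas (s, t) (g, h))) = eps e (bas (s, t) (g, h))
      rw [eps_bas, ← tm_bas, hE, map_zsmul, eps_bas, eps_bas, smul_eq_mul]
    exact DFunLike.congr_fun this v
  have two : ∀ s : C1.S × C2.S, ∑ t : C1.S × C2.S,
      aug ((lft C2.S (C1.D.map (inlR G1 G2)) +
        lft C2.S (sgnM (GR (G1 × G2)) C1.deg) * rgt C1.S (C2.D.map (inrR G1 G2))) s t) *
        e t = 0 := by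
    intro s
    have h1 : eps e (dT C1 C2 (bas s 1)) = 0 := by
      rw [← heE, hEd]
      exact eps_dH C2 e2 b2 _
    rw [eps_apply] at h1
    rw [← h1]
    refine Finset.sum_congr rfl fun t _ => ?_
    have h2 : dT C1 C2 (bas s 1) t = MonoidAlgebra.single 1 1 *
        (lft C2.S (C1.D.map (inlR G1 G2)) +
        lft C2.S (sgnM (GR (G1 × G2)) C1.deg) * rgt C1.S (C2.D.map (inrR G1 G2))) s t :=
      dH_bas (C1.xtens C2) s t 1
    rw [h2, aug_mul_single]
  have three : ∃ v : C1.S × C2.S → GR (G1 × G2), eps e v = 1 := by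
    refine ⟨tm v0 v2, ?_⟩
    rw [← heE, hE, c0, one_smul]
    exact c2
  have main : ∀ v : C1.S × C2.S → GR (G1 × G2), dT C1 C2 v = 0 → eps e v = 0 →
      ∃ w : C1.S × C2.S → GR (G1 × G2), dT C1 C2 w = v := by
    intro v hv hev
    have hx : dH C2 (E v) = 0 := by
      rw [← hEd, hv, map_zero]
    have hx' : eps e2 (E v) = 0 := by
      rw [heE]
      exact hev
    obtain ⟨y, hy⟩ := d2 (E v) hx hx'
    refine ⟨Ht v + tm v0 y, ?_⟩
    have k1 := hid v
    rw [hv, map_zero, add_zero] at k1
    have hsv : sg C1 v0 = v0 := by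
      funext s
      rw [sg_apply]
      by_cases hs : C1.deg s = 0
      · rw [hs, pow_zero, one_mul]
      · rw [hv0 s hs, mul_zero]
    have hdv : dH C1 v0 = 0 := by
      funext t
      exact dH_supp C1 hv0 (by omega)
    have hy' : dH C2 y = E v := hy
    have k2 : dT C1 C2 (tm v0 y) = tm v0 (E v) := by
      rw [dT_tm, hsv, hdv, hy', ← tmL_apply, map_zero, zero_add]
    rw [map_add, k1, k2, sub_add_cancel]
  refine ⟨e, ?_, two, three, main⟩
  rintro ⟨s, t⟩ hs
  have hs' : C1.deg s + C2.deg t ≠ 0 := hs
  by_cases h0 : C1.deg s = 0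
  · show e1 s * e2 t = 0
    rw [a2 t (by omega), mul_zero]
  · show e1 s * e2 t = 0
    rw [a1 s h0, zero_mul]

end tensor

end Pool.H42.L2
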